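import Mathlib

/-!
Finitely supported measures on the integers: the group algebra, its `ℓ¹` norm, symmetric
unimodal elements and the smoothing inequality for their differences.
-/

set_option autoImplicit false

namespace Pool.Agent.R434.Ritt

open Finset

/-- finitely supported real functions on the integers, with convolution as product -/
abbrev L := AddMonoidAlgebra ℝ ℤ

/-- the point mass at `i` -/
noncomputable def T (i : ℤ) : L := AddMonoidAlgebra.single i 1

/-- the `ℓ¹` norm -/
noncomputable def N1 (f : L) : ℝ := ∑' x : ℤ, |f.coeff x|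

lemma summ (f : L) : Summable fun x : ℤ => f.coeff x :=
  summable_of_hasFiniteSupport f.coeff.hasFiniteSupport

lemma summ_abs (f : L) : Summable fun x : ℤ => |f.coeff x| := (summ f).abs

lemma N1_nonneg (f : L) : 0 ≤ N1 f := tsum_nonneg fun _ => abs_nonneg _

lemma N1_add (f g : L) : N1 (f + g) ≤ N1 f + N1 g := by
  unfold N1
  rw [← (summ_abs f).tsum_add (summ_abs g)]
  refine (summ_abs (f + g)).tsum_le_tsum (fun x => ?_) ((summ_abs f).add (summ_abs g))
  exact abs_add_le _ _

lemma N1_smul (c : ℝ) (f : L) : N1 (c • f) = |c| * N1 f := by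
  unfold N1
  rw [← tsum_mul_left]
  refine tsum_congr fun x => ?_
  rw [AddMonoidAlgebra.coeff_smul_apply, smul_eq_mul, abs_mul]

lemma N1_neg (f : L) : N1 (-f) = N1 f := by
  unfold N1
  refine tsum_congr fun x => ?_
  rw [AddMonoidAlgebra.coeff_neg]
  exact abs_neg _

lemma N1_zero : N1 (0 : L) = 0 := by
  unfold N1
  simp

lemma N1_sum {ι : Type*} (s : Finset ι) (f : ι → L) : N1 (∑ i ∈ s, f i) ≤ ∑ i ∈ s, N1 (f i) := by
  classical
  induction s using Finset.induction_on with
  | empty => simp [N1_zero]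
  | insert a s ha ih =>
    rw [Finset.sum_insert ha, Finset.sum_insert ha]
    exact (N1_add _ _).trans (by linarith)

lemma T_mul_coeff (i : ℤ) (f : L) (x : ℤ) : (T i * f).coeff x = f.coeff (x - i) := by
  unfold T
  rw [AddMonoidAlgebra.coeff_single_mul_apply, one_mul]
  congr 1
  ring

lemma T_coeff (i x : ℤ) : (T i).coeff x = if i = x then 1 else 0 := by
  unfold T
  exact Finsupp.single_apply

lemma T_zero : T 0 = 1 := rfl

lemma T_add (i j : ℤ) : T i * T j = T (i + j) := by
  unfold T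
  rw [AddMonoidAlgebra.single_mul_single, one_mul]

lemma T_neg (i : ℤ) : T i * T (-i) = 1 := by
  rw [T_add, add_neg_cancel, T_zero]

lemma N1_T_mul (i : ℤ) (f : L) : N1 (T i * f) = N1 f := by
  unfold N1
  rw [← (Equiv.subRight i).tsum_eq fun x : ℤ => |f.coeff x|]
  refine tsum_congr fun x => ?_
  rw [T_mul_coeff]
  rfl

lemma eq_sum (f : L) : f = ∑ i ∈ f.coeff.support, f.coeff i • T i := by
  refine AddMonoidAlgebra.coeff_injective ?_
  ext x
  rw [AddMonoidAlgebra.coeff_sum, Finsupp.finsetSum_apply]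
  simp only [AddMonoidAlgebra.coeff_smul_apply, T_coeff, smul_eq_mul, mul_ite, mul_one, mul_zero]
  rw [Finset.sum_ite_eq' f.coeff.support x fun i => f.coeff i]
  split_ifs with h
  · rfl
  · simpa using h

lemma N1_eq_sum (f : L) : N1 f = ∑ i ∈ f.coeff.support, |f.coeff i| := by
  unfold N1
  refine tsum_eq_sum fun x hx => ?_
  have : f.coeff x = 0 := by simpa using hx
  rw [this, abs_zero]

lemma N1_mul (f g : L) : N1 (f * g) ≤ N1 f * N1 g := by
  have h : f * g = ∑ i ∈ f.coeff.support, f.coeff i • (T i * g) := by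
    conv_lhs => rw [eq_sum f]
    rw [Finset.sum_mul]
    exact Finset.sum_congr rfl fun i _ => smul_mul_assoc _ _ _
  rw [h, N1_eq_sum f, Finset.sum_mul]
  refine (N1_sum _ _).trans (Finset.sum_le_sum fun i _ => ?_)
  rw [N1_smul, N1_T_mul]

/-- symmetric and non-increasing in `|x|` -/
def Uni (f : L) : Prop := ∀ x y : ℤ, |x| ≤ |y| → f.coeff y ≤ f.coeff x

lemma Uni.symm {f : L} (hf : Uni f) (x : ℤ) : f.coeff (-x) = f.coeff x :=
  le_antisymm (hf _ _ (by simp)) (hf _ _ (by simp))

lemma exists_bound (f : L) : ∃ K : ℕ, ∀ x : ℤ, (K : ℤ) ≤ |x| → f.coeff x = 0 := by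
  classical
  refine ⟨(∑ i ∈ f.coeff.support, |i|).toNat + 1, fun x hx => ?_⟩
  by_contra h
  have h1 : x ∈ f.coeff.support := by simpa using h
  have h2 : |x| ≤ ∑ i ∈ f.coeff.support, |i| :=
    Finset.single_le_sum (f := fun i : ℤ => |i|) (fun i _ => abs_nonneg i) h1
  have h3 := Int.self_le_toNat (∑ i ∈ f.coeff.support, |i|)
  push_cast at hx
  omega

lemma Uni.nonneg {f : L} (hf : Uni f) (x : ℤ) : 0 ≤ f.coeff x := by
  obtain ⟨K, hK⟩ := exists_bound f
  have h1 := hf x ((K : ℤ) + |x|) (by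
    rw [abs_of_nonneg (by positivity : (0 : ℤ) ≤ (K : ℤ) + |x|)]
    omega)
  rwa [hK _ (by
    rw [abs_of_nonneg (by positivity : (0 : ℤ) ≤ (K : ℤ) + |x|)]
    have := abs_nonneg x
    omega)] at h1

/-- the uniform measure on `[-k, k]` -/
noncomputable def U (k : ℕ) : L := (1 / (2 * k + 1 : ℝ)) • ∑ n ∈ range (2 * k + 1), T ((n : ℤ) - k)

lemma U_mul_coeff (k : ℕ) (f : L) (x : ℤ) :
    (U k * f).coeff x = (1 / (2 * k + 1 : ℝ)) * ∑ n ∈ range (2 * k + 1), f.coeff (x + k - n) := by
  unfold U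
  rw [smul_mul_assoc, AddMonoidAlgebra.coeff_smul_apply, smul_eq_mul, Finset.sum_mul,
    AddMonoidAlgebra.coeff_sum, Finsupp.finsetSum_apply]
  congr 1
  refine Finset.sum_congr rfl fun n _ => ?_
  rw [T_mul_coeff]
  congr 1
  ring

lemma Uni_U_mul {f : L} (hf : Uni f) (k : ℕ) : Uni (U k * f) := by
  have hc : (0 : ℝ) < 2 * k + 1 := by positivity
  -- symmetric
  have hs : ∀ x : ℤ, (U k * f).coeff (-x) = (U k * f).coeff x := by
    intro x
    rw [U_mul_coeff, U_mul_coeff]
    congr 1
    rw [← Finset.sum_range_reflect]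
    refine Finset.sum_congr rfl fun n hn => ?_
    rw [← hf.symm]
    congr 1
    have hn' := Finset.mem_range.1 hn
    omega
  have hstep : ∀ x : ℤ, 0 ≤ x → (U k * f).coeff (x + 1) ≤ (U k * f).coeff x := by
    intro x hx
    rw [U_mul_coeff, U_mul_coeff]
    refine mul_le_mul_of_nonneg_left ?_ (by positivity)
    have h1 := Finset.sum_range_sub (fun n : ℕ => f.coeff (x + 1 + k - n)) (2 * k + 1)
    have h2 : ∑ n ∈ range (2 * k + 1),
        (f.coeff (x + 1 + k - ((n + 1 : ℕ) : ℤ)) - f.coeff (x + 1 + k - (n : ℤ))) =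
        ∑ n ∈ range (2 * k + 1), f.coeff (x + k - n) -
          ∑ n ∈ range (2 * k + 1), f.coeff (x + 1 + k - n) := by
      rw [Finset.sum_sub_distrib]
      congr 1
      refine Finset.sum_congr rfl fun n _ => ?_
      congr 1
      push_cast
      ring
    have h3 : f.coeff (x + 1 + k - (0 : ℕ)) ≤ f.coeff (x + 1 + k - ((2 * k + 1 : ℕ) : ℤ)) := by
      refine hf _ _ ?_
      push_cast
      rw [abs_le]
      have h4 := le_abs_self (x + 1 + (k : ℤ) - 0)
      constructor <;> omega
    linarith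
  have hmono : ∀ x : ℤ, 0 ≤ x → ∀ n : ℕ, (U k * f).coeff (x + n) ≤ (U k * f).coeff x := by
    intro x hx n
    induction n with
    | zero => simp
    | succ n ih =>
      have := hstep (x + n) (by omega)
      refine le_trans ?_ ih
      rwa [Nat.cast_succ, ← add_assoc]
  have habs : ∀ x : ℤ, (U k * f).coeff |x| = (U k * f).coeff x := by
    intro x
    rcases abs_choice x with h | h
    · rw [h]
    · rw [h, hs]
  intro x y hxy
  rw [← habs x, ← habs y]
  have := hmono |x| (abs_nonneg x) (|y| - |x|).toNat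
  rwa [Int.toNat_of_nonneg (by omega), add_sub_cancel] at this

/-- the mass of `[-k, k]` -/
noncomputable def F (f : L) (k : ℕ) : ℝ := ∑ n ∈ range (2 * k + 1), f.coeff ((n : ℤ) - k)

lemma F_nonneg {f : L} (hf : Uni f) (k : ℕ) : 0 ≤ F f k :=
  Finset.sum_nonneg fun _ _ => hf.nonneg _

lemma F_eq_tsum (f : L) (k : ℕ) : F f k = ∑' x : ℤ, if |x| ≤ (k : ℤ) then f.coeff x else 0 := by
  classical
  have h1 : ∑' x : ℤ, (if |x| ≤ (k : ℤ) then f.coeff x else 0) =
      ∑ x ∈ Finset.Icc (-(k : ℤ)) k, f.coeff x := by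
    rw [tsum_eq_sum (s := Finset.Icc (-(k : ℤ)) k)]
    · refine Finset.sum_congr rfl fun x hx => ?_
      rw [if_pos]
      rw [Finset.mem_Icc] at hx
      exact abs_le.2 hx
    · intro x hx
      rw [if_neg]
      intro h
      exact hx (Finset.mem_Icc.2 (abs_le.1 h))
  rw [h1]
  unfold F
  refine Finset.sum_nbij' (fun n : ℕ => (n : ℤ) - k) (fun x : ℤ => (x + k).toNat) ?_ ?_ ?_ ?_ ?_
  · intro n hn
    have := Finset.mem_range.1 hn
    rw [Finset.mem_Icc]
    constructor <;> omega
  · intro x hx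
    rw [Finset.mem_Icc] at hx
    rw [Finset.mem_range]
    omega
  · intro n hn
    simp
  · intro x hx
    rw [Finset.mem_Icc] at hx
    omega
  · intro n hn
    rfl

lemma N1_diff_aux {f : L} (hf : Uni f) (i : ℕ) : N1 ((1 - T i) * f) ≤ 2 * F f i := by
  have hc : ∀ x : ℤ, ((1 - T i) * f).coeff x = f.coeff x - f.coeff (x - i) := by
    intro x
    rw [sub_mul, one_mul, AddMonoidAlgebra.coeff_sub, Finsupp.sub_apply, T_mul_coeff]
  set a : ℤ → ℝ := fun x => if 2 * x ≤ (i : ℤ) then f.coeff (x - i) else 0 with ha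
  set b : ℤ → ℝ := fun x => if 2 * x ≤ (i : ℤ) then 0 else f.coeff x with hb
  have hfs := summ f
  have hshift : Summable fun x : ℤ => f.coeff (x - i) :=
    ((Equiv.subRight (i : ℤ)).summable_iff (f := fun x : ℤ => f.coeff x)).2 hfs
  have hsa : Summable a := by
    refine Summable.of_nonneg_of_le (fun x => ?_) (fun x => ?_) hshift
    · simp only [ha]
      split_ifs
      · exact hf.nonneg _
      · exact le_rfl
    · simp only [ha]
      split_ifs
      · exact le_rfl
      · exact hf.nonneg _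
  have hsb : Summable b := by
    refine Summable.of_nonneg_of_le (fun x => ?_) (fun x => ?_) hfs
    · simp only [hb]
      split_ifs
      · exact le_rfl
      · exact hf.nonneg _
    · simp only [hb]
      split_ifs
      · exact hf.nonneg _
      · exact le_rfl
  have hpt : ∀ x : ℤ, |((1 - T i) * f).coeff x| ≤
      f.coeff x + f.coeff (x - i) - 2 * (a x + b x) := by
    intro x
    rw [hc]
    simp only [ha, hb]
    split_ifs with h
    · have h1 : f.coeff (x - i) ≤ f.coeff x := by
        refine hf _ _ ?_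
        rcases abs_cases x with h2 | h2 <;> rcases abs_cases (x - i) with h3 | h3 <;> omega
      rw [abs_of_nonneg (by linarith)]
      linarith
    · have h1 : f.coeff x ≤ f.coeff (x - i) := by
        refine hf _ _ ?_
        rcases abs_cases x with h2 | h2 <;> rcases abs_cases (x - i) with h3 | h3 <;> omega
      rw [abs_of_nonpos (by linarith)]
      linarith
  have h1 : N1 ((1 - T i) * f) ≤ ∑' x : ℤ, (f.coeff x + f.coeff (x - i) - 2 * (a x + b x)) :=
    (summ_abs _).tsum_le_tsum hpt ((hfs.add hshift).sub ((hsa.add hsb).mul_left 2))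
  have h2 : ∑' x : ℤ, (f.coeff x + f.coeff (x - i) - 2 * (a x + b x)) =
      ∑' x : ℤ, f.coeff x + ∑' x : ℤ, f.coeff (x - i) - 2 * (∑' x : ℤ, a x + ∑' x : ℤ, b x) := by
    rw [(hfs.add hshift).tsum_sub ((hsa.add hsb).mul_left 2), hfs.tsum_add hshift, tsum_mul_left,
      hsa.tsum_add hsb]
  have h3 : ∑' x : ℤ, f.coeff (x - i) = ∑' x : ℤ, f.coeff x :=
    (Equiv.subRight (i : ℤ)).tsum_eq fun x : ℤ => f.coeff x
  have h4 : ∑' x : ℤ, a x = ∑' x : ℤ, if 2 * x ≤ -(i : ℤ) then f.coeff x else 0 := by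
    rw [← (Equiv.subRight (i : ℤ)).tsum_eq fun x : ℤ => if 2 * x ≤ -(i : ℤ) then f.coeff x else 0]
    refine tsum_congr fun x => ?_
    simp only [ha, Equiv.subRight_apply]
    by_cases h : 2 * x ≤ (i : ℤ)
    · rw [if_pos h, if_pos (by omega)]
    · rw [if_neg h, if_neg (by omega)]
  have hsa' : Summable fun x : ℤ => if 2 * x ≤ -(i : ℤ) then f.coeff x else 0 := by
    refine Summable.of_nonneg_of_le (fun x => ?_) (fun x => ?_) hfs
    · split_ifs
      · exact hf.nonneg _
      · exact le_rfl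
    · split_ifs
      · exact le_rfl
      · exact hf.nonneg _
  have hsF : Summable fun x : ℤ => if |x| ≤ (i : ℤ) then f.coeff x else 0 := by
    refine Summable.of_nonneg_of_le (fun x => ?_) (fun x => ?_) hfs
    · split_ifs
      · exact hf.nonneg _
      · exact le_rfl
    · split_ifs
      · exact le_rfl
      · exact hf.nonneg _
  have h5 : ∑' x : ℤ, f.coeff x ≤ (∑' x : ℤ, if 2 * x ≤ -(i : ℤ) then f.coeff x else 0) +
      ∑' x : ℤ, b x + F f i := by
    rw [F_eq_tsum, ← hsa'.tsum_add hsb, ← (hsa'.add hsb).tsum_add hsF]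
    refine hfs.tsum_le_tsum (fun x => ?_) ((hsa'.add hsb).add hsF)
    simp only [hb]
    have h0 := hf.nonneg x
    by_cases h6 : |x| ≤ (i : ℤ)
    · rw [if_pos h6]
      have h7 : (0 : ℝ) ≤ if 2 * x ≤ -(i : ℤ) then f.coeff x else 0 := by
        split_ifs
        · exact h0
        · exact le_rfl
      have h8 : (0 : ℝ) ≤ if 2 * x ≤ (i : ℤ) then 0 else f.coeff x := by
        split_ifs
        · exact le_rfl
        · exact h0
      linarith
    · rw [if_neg h6]
      rcases le_or_gt 0 x with h7 | h7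
      · rw [abs_of_nonneg h7] at h6
        rw [if_neg (by omega), if_neg (by omega)]
        linarith
      · rw [abs_of_neg h7] at h6
        rw [if_pos (by omega), if_pos (by omega)]
        linarith
  rw [h2, h3, h4] at h1
  linarith

lemma N1_diff {f : L} (hf : Uni f) (k : ℕ) (i : ℤ) (hi : |i| ≤ k) : N1 ((1 - T i) * f) ≤ 2 * F f k := by
  have hmono : ∀ j : ℕ, j ≤ k → F f j ≤ F f k := by
    intro j hj
    rw [F_eq_tsum, F_eq_tsum]
    have hs : ∀ m : ℕ, Summable fun x : ℤ => if |x| ≤ (m : ℤ) then f.coeff x else 0 := by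
      intro m
      refine Summable.of_nonneg_of_le (fun x => ?_) (fun x => ?_) (summ f)
      · split_ifs
        · exact hf.nonneg _
        · exact le_rfl
      · split_ifs
        · exact le_rfl
        · exact hf.nonneg _
    refine (hs j).tsum_le_tsum (fun x => ?_) (hs k)
    split_ifs with h1 h2 h2
    · exact le_rfl
    · omega
    · exact hf.nonneg _
    · exact le_rfl
  rcases le_or_gt 0 i with h | h
  · obtain ⟨j, rfl⟩ := Int.eq_ofNat_of_zero_le h
    have hj : j ≤ k := by
      rw [abs_of_nonneg h] at hi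
      exact_mod_cast hi
    exact (N1_diff_aux hf j).trans (by linarith [hmono j hj])
  · obtain ⟨j, hj⟩ := Int.eq_ofNat_of_zero_le (by omega : 0 ≤ -i)
    have hi' : i = -(j : ℤ) := by omega
    subst hi'
    have hj' : j ≤ k := by
      rw [abs_neg, abs_of_nonneg (by positivity)] at hi
      exact_mod_cast hi
    have e : (1 - T (-(j : ℤ))) * f = -(T (-(j : ℤ)) * ((1 - T j) * f)) := by
      have h1 : T (-(j : ℤ)) * T j = 1 := by rw [mul_comm, T_neg]
      calc (1 - T (-(j : ℤ))) * f = f - T (-(j : ℤ)) * f := by ring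
        _ = (T (-(j : ℤ)) * T j) * f - T (-(j : ℤ)) * f := by rw [h1, one_mul]
        _ = -(T (-(j : ℤ)) * ((1 - T j) * f)) := by ring
    rw [e, N1_neg, N1_T_mul]
    exact (N1_diff_aux hf j).trans (by linarith [hmono j hj'])

/-- the smoothing inequality -/
lemma key1 {f : L} (hf : Uni f) (k : ℕ) : N1 ((1 - U k) * (f * f)) ≤ 2 * F f k ^ 2 := by
  have hc : (0 : ℝ) < 2 * k + 1 := by positivity
  have e : (1 - U k) * (f * f) = (1 / (2 * (2 * k + 1)) : ℝ) •
      ∑ n ∈ range (2 * k + 1), ((1 - T ((n : ℤ) - k)) * f) * ((1 - T ((k : ℤ) - n)) * f) := by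
    have h1 : ∑ n ∈ range (2 * k + 1), T ((k : ℤ) - n) = ∑ n ∈ range (2 * k + 1), T ((n : ℤ) - k) := by
      rw [← Finset.sum_range_reflect]
      refine Finset.sum_congr rfl fun n hn => ?_
      congr 1
      have hn' := Finset.mem_range.1 hn
      omega
    have h2 : ∀ n : ℕ, (1 - T ((n : ℤ) - k)) * f * ((1 - T ((k : ℤ) - n)) * f) =
        (2 - T ((n : ℤ) - k) - T ((k : ℤ) - n)) * (f * f) := by
      intro n
      have h3 : T ((n : ℤ) - k) * T ((k : ℤ) - n) = 1 := by
        rw [T_add, ← T_zero]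
        congr 1
        ring
      calc (1 - T ((n : ℤ) - k)) * f * ((1 - T ((k : ℤ) - n)) * f)
          = (1 - T ((n : ℤ) - k) - T ((k : ℤ) - n) + T ((n : ℤ) - k) * T ((k : ℤ) - n)) *
            (f * f) := by ring
        _ = _ := by rw [h3]; ring
    simp only [h2]
    rw [← Finset.sum_mul, Finset.sum_sub_distrib, Finset.sum_sub_distrib, h1, Finset.sum_const,
      Finset.card_range, ← smul_mul_assoc]
    congr 1
    unfold U
    rw [smul_sub, smul_sub, sub_sub, ← two_smul ℝ ((1 / (2 * (2 * k + 1)) : ℝ) •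
      ∑ n ∈ range (2 * k + 1), T ((n : ℤ) - k)), smul_smul]
    congr 1
    · rw [← Nat.cast_smul_eq_nsmul ℝ, smul_smul]
      have h4 : (2 : L) = (2 : ℝ) • 1 := by
        rw [two_smul]
        norm_num
      rw [h4, smul_smul]
      have h5 : (1 / (2 * (2 * (k : ℝ) + 1)) * ((2 * k + 1 : ℕ) : ℝ) * 2) = 1 := by
        push_cast
        field_simp
      rw [h5, one_smul]
    · congr 1
      field_simp
  rw [e, N1_smul, abs_of_pos (by positivity)]
  have h6 : N1 (∑ n ∈ range (2 * k + 1), ((1 - T ((n : ℤ) - k)) * f) * ((1 - T ((k : ℤ) - n)) * f)) ≤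
      ∑ n ∈ range (2 * k + 1), (2 * F f k) * (2 * F f k) := by
    refine (N1_sum _ _).trans (Finset.sum_le_sum fun n hn => ?_)
    have hn' := Finset.mem_range.1 hn
    refine (N1_mul _ _).trans (mul_le_mul (N1_diff hf k _ ?_) (N1_diff hf k _ ?_) (N1_nonneg _) ?_)
    · rw [abs_le]
      constructor <;> omega
    · rw [abs_le]
      constructor <;> omega
    · have := F_nonneg hf k
      linarith
  rw [Finset.sum_const, Finset.card_range, nsmul_eq_mul] at h6
  refine (mul_le_mul_of_nonneg_left h6 (by positivity)).trans (le_of_eq ?_)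
  push_cast
  field_simp

end Pool.Agent.R434.Ritt
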