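import Mathlib
import Pool.Agent.R434.RittA

/-!
Fourier estimates for mixtures of uniform measures and the Ritt bound for finitely supported
symmetric unimodal probability measures.
-/

set_option autoImplicit false

namespace Pool.Agent.R434.Ritt

open Finset MeasureTheory

/-- the character -/
noncomputable def chi (t : ℝ) : Multiplicative ℤ →* ℂ where
  toFun x := Complex.exp (((Multiplicative.toAdd x : ℤ) : ℂ) * t * Complex.I)
  map_one' := by simp
  map_mul' x y := by
    rw [← Complex.exp_add]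
    congr 1
    rw [toAdd_mul]
    push_cast
    ring

/-- the Fourier transform at `t` -/
noncomputable def E (t : ℝ) : L →ₐ[ℝ] ℂ := AddMonoidAlgebra.lift ℝ ℂ ℤ (chi t)

lemma E_T (t : ℝ) (i : ℤ) : E t (T i) = Complex.exp ((i : ℂ) * t * Complex.I) := by
  unfold E T
  rw [AddMonoidAlgebra.lift_single]
  simp [chi]

lemma E_eq (t : ℝ) (f : L) :
    E t f = ∑ i ∈ f.coeff.support, (f.coeff i : ℂ) * Complex.exp ((i : ℂ) * t * Complex.I) := by
  conv_lhs => rw [eq_sum f]
  rw [map_sum]
  refine Finset.sum_congr rfl fun i _ => ?_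
  rw [map_smul, E_T]
  exact Complex.real_smul

lemma exp_re (i : ℤ) (t : ℝ) : (Complex.exp ((i : ℂ) * t * Complex.I)).re = Real.cos (i * t) := by
  have : ((i : ℂ) * t * Complex.I) = (((i : ℝ) * t : ℝ) : ℂ) * Complex.I := by
    push_cast
    ring
  rw [this, Complex.exp_ofReal_mul_I_re]

lemma exp_im (i : ℤ) (t : ℝ) : (Complex.exp ((i : ℂ) * t * Complex.I)).im = Real.sin (i * t) := by
  have : ((i : ℂ) * t * Complex.I) = (((i : ℝ) * t : ℝ) : ℂ) * Complex.I := by
    push_cast
    ring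
  rw [this, Complex.exp_ofReal_mul_I_im]

lemma E_re (t : ℝ) (f : L) : (E t f).re = ∑ i ∈ f.coeff.support, f.coeff i * Real.cos (i * t) := by
  rw [E_eq, Complex.re_sum]
  refine Finset.sum_congr rfl fun i _ => ?_
  rw [Complex.re_ofReal_mul, exp_re]

lemma E_zero (f : L) : E 0 f = ((∑' x : ℤ, f.coeff x : ℝ) : ℂ) := by
  have : ∑' x : ℤ, f.coeff x = ∑ x ∈ f.coeff.support, f.coeff x :=
    tsum_eq_sum fun x hx => by simpa using hx
  rw [this, E_eq]
  push_cast
  refine Finset.sum_congr rfl fun i _ => ?_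
  simp

/-- the kernel for `U k` -/
noncomputable def S (k : ℕ) (t : ℝ) : ℝ := ∑ n ∈ range (2 * k + 1), Real.cos (((n : ℤ) - k : ℤ) * t)

lemma E_U (k : ℕ) (t : ℝ) : E t (U k) = ((1 / (2 * k + 1) * S k t : ℝ) : ℂ) := by
  unfold U
  rw [map_smul, map_sum]
  have h : ∑ n ∈ range (2 * k + 1), E t (T ((n : ℤ) - k)) = (S k t : ℂ) := by
    simp only [E_T]
    apply Complex.ext
    · rw [Complex.re_sum, Complex.ofReal_re]
      unfold S
      refine Finset.sum_congr rfl fun n _ => ?_
      rw [exp_re]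
    · rw [Complex.im_sum, Complex.ofReal_im]
      simp only [exp_im]
      have h1 : ∑ n ∈ range (2 * k + 1), Real.sin (((n : ℤ) - k : ℤ) * t) =
          -∑ n ∈ range (2 * k + 1), Real.sin (((n : ℤ) - k : ℤ) * t) := by
        conv_lhs => rw [← Finset.sum_range_reflect]
        rw [← Finset.sum_neg_distrib]
        refine Finset.sum_congr rfl fun n hn => ?_
        have hn' := Finset.mem_range.1 hn
        rw [← Real.sin_neg]
        congr 1
        rw [← neg_mul]
        congr 1
        have : ((2 * k + 1 - 1 - n : ℕ) : ℤ) - (k : ℤ) = -((n : ℤ) - k) := by omega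
        rw [this]
        push_cast
        ring
      linarith
  rw [h, Complex.real_smul]
  push_cast
  ring

lemma S_formula (k : ℕ) (t : ℝ) :
    2 * Real.sin (t / 2) * S k t = 2 * Real.sin ((2 * k + 1) * t / 2) := by
  have h1 := Finset.sum_range_sub (fun n : ℕ => Real.sin (((n : ℝ) - k - 1 / 2) * t)) (2 * k + 1)
  unfold S
  rw [Finset.mul_sum]
  have h2 : ∀ n : ℕ, 2 * Real.sin (t / 2) * Real.cos (((n : ℤ) - k : ℤ) * t) =
      Real.sin ((((n + 1 : ℕ) : ℝ) - k - 1 / 2) * t) - Real.sin (((n : ℝ) - k - 1 / 2) * t) := by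
    intro n
    have e1 : (((n + 1 : ℕ) : ℝ) - k - 1 / 2) * t = (((n : ℤ) - k : ℤ) : ℝ) * t + t / 2 := by
      push_cast
      ring
    have e2 : ((n : ℝ) - k - 1 / 2) * t = (((n : ℤ) - k : ℤ) : ℝ) * t - t / 2 := by
      push_cast
      ring
    rw [e1, e2, Real.sin_add, Real.sin_sub]
    ring
  simp only [h2]
  rw [h1]
  have e3 : (((2 * k + 1 : ℕ) : ℝ) - k - 1 / 2) * t = (2 * k + 1) * t / 2 := by
    push_cast
    ring
  have e4 : (((0 : ℕ) : ℝ) - k - 1 / 2) * t = -((2 * k + 1) * t / 2) := by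
    push_cast
    ring
  rw [e3, e4, Real.sin_neg]
  ring

/-- the weight -/
noncomputable def w (k : ℕ) (t : ℝ) : ℝ := (k : ℝ) ^ 2 * t ^ 2 / (1 + (k : ℝ) ^ 2 * t ^ 2)

lemma w_nonneg (k : ℕ) (t : ℝ) : 0 ≤ w k t := by
  unfold w
  positivity

lemma w_le_one (k : ℕ) (t : ℝ) : w k t ≤ 1 := by
  unfold w
  rw [div_le_one (by positivity)]
  linarith

lemma sum_sq (k : ℕ) : ∑ n ∈ range (2 * k + 1), ((((n : ℤ) - k : ℤ)) : ℝ) ^ 2 =
    (2 * k + 1) * k * (k + 1) / 3 := by
  have h : ∀ m : ℕ, ∑ n ∈ range m, ((((n : ℤ) - k : ℤ)) : ℝ) ^ 2 =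
      m * (m - 1) * (2 * m - 1) / 6 - k * m * (m - 1) + m * k ^ 2 := by
    intro m
    induction m with
    | zero => simp
    | succ m ih =>
      rw [Finset.sum_range_succ, ih]
      push_cast
      ring
  rw [h]
  push_cast
  ring

lemma S_bound (k : ℕ) (t : ℝ) (h0 : 0 ≤ t) (h1 : t ≤ 1) : |S k t| ≤ (2 * k + 1) * (1 - w k t / 20) := by
  have hk : (0 : ℝ) ≤ k := Nat.cast_nonneg k
  rcases le_or_gt 3 ((2 * k + 1) * t) with h3 | h3
  · have ht : 0 < t := by
      rcases h0.lt_or_eq with h | h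
      · exact h
      · rw [← h] at h3
        norm_num at h3
    have h4 : t / 2 - (t / 2) ^ 3 / 6 < Real.sin (t / 2) := Real.sin_gt_sub_cube (by linarith)
    have h5 : 15 / 32 * t ≤ Real.sin (t / 2) := by
      have : t ^ 2 ≤ 1 := by nlinarith
      nlinarith [mul_nonneg h0 (sub_nonneg.2 this)]
    have h6 := S_formula k t
    have h7 : |2 * Real.sin (t / 2) * S k t| ≤ 2 := by
      rw [h6, abs_mul, abs_of_pos (by norm_num : (0 : ℝ) < 2)]
      linarith [Real.abs_sin_le_one ((2 * k + 1) * t / 2)]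
    have h8 : 0 < Real.sin (t / 2) := by nlinarith
    rw [abs_mul, abs_of_pos (by linarith)] at h7
    have h9 : 15 / 16 * t * |S k t| ≤ 2 := by
      have := mul_le_mul_of_nonneg_right h5 (abs_nonneg (S k t))
      nlinarith
    have h10 : (1 : ℝ) - w k t / 20 ≥ 19 / 20 := by linarith [w_le_one k t]
    have h11 : (2 * k + 1 : ℝ) * (19 / 20) ≤ (2 * k + 1) * (1 - w k t / 20) :=
      mul_le_mul_of_nonneg_left h10 (by linarith)
    refine le_trans ?_ h11
    have h12 : t * |S k t| ≤ 32 / 15 := by linarith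
    have h13 : t * |S k t| ≤ t * ((2 * k + 1) * (19 / 20)) := by nlinarith
    exact le_of_mul_le_mul_left h13 ht
  · have hpi := Real.pi_gt_three
    have hb : ∀ n ∈ range (2 * k + 1), |((((n : ℤ) - k : ℤ)) : ℝ) * t| ≤ 3 / 2 := by
      intro n hn
      have hn' := Finset.mem_range.1 hn
      rw [abs_mul, abs_of_nonneg h0]
      have : |((((n : ℤ) - k : ℤ)) : ℝ)| ≤ k := by
        rw [← Int.cast_abs]
        have : |((n : ℤ) - k)| ≤ k := by
          rw [abs_le]
          constructor <;> omega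
        exact_mod_cast this
      have h4 := mul_le_mul_of_nonneg_right this h0
      linarith
    have hnn : 0 ≤ S k t := by
      refine Finset.sum_nonneg fun n hn => ?_
      have := hb n hn
      rw [abs_le] at this
      exact Real.cos_nonneg_of_mem_Icc ⟨by linarith, by linarith⟩
    rw [abs_of_nonneg hnn]
    have hup : S k t ≤ ∑ n ∈ range (2 * k + 1), (1 - 2 / Real.pi ^ 2 * (((((n : ℤ) - k : ℤ)) : ℝ) * t) ^ 2) := by
      refine Finset.sum_le_sum fun n hn => ?_
      exact Real.cos_le_one_sub_mul_cos_sq ((hb n hn).trans (by linarith))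
    have he : ∑ n ∈ range (2 * k + 1), (1 - 2 / Real.pi ^ 2 * (((((n : ℤ) - k : ℤ)) : ℝ) * t) ^ 2) =
        (2 * k + 1) - 2 / Real.pi ^ 2 * t ^ 2 * ((2 * k + 1) * k * (k + 1) / 3) := by
      rw [Finset.sum_sub_distrib, Finset.sum_const, Finset.card_range, nsmul_eq_mul, mul_one, ← sum_sq,
        Finset.mul_sum]
      congr 1
      · push_cast
        ring
      · refine Finset.sum_congr rfl fun n _ => ?_
        ring
    rw [he] at hup
    refine hup.trans ?_
    have hpi2 : Real.pi ^ 2 < 10 := by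
      have := Real.pi_lt_d2
      nlinarith
    have h5 : (1 : ℝ) / 5 ≤ 2 / Real.pi ^ 2 := by
      rw [div_le_div_iff₀ (by norm_num) (by positivity)]
      linarith
    have h6 : w k t ≤ (k : ℝ) ^ 2 * t ^ 2 := by
      unfold w
      rw [div_le_iff₀ (by positivity)]
      nlinarith [mul_nonneg (sq_nonneg (k : ℝ)) (sq_nonneg t), sq_nonneg ((k : ℝ) ^ 2 * t ^ 2)]
    have h7 : (1 : ℝ) / 5 * (t ^ 2 * ((2 * k + 1) * k * (k + 1) / 3)) ≤
        2 / Real.pi ^ 2 * (t ^ 2 * ((2 * k + 1) * k * (k + 1) / 3)) :=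
      mul_le_mul_of_nonneg_right h5 (by positivity)
    have h8 : (2 * k + 1 : ℝ) * (w k t / 20) ≤ 1 / 5 * (t ^ 2 * ((2 * k + 1) * k * (k + 1) / 3)) := by
      have h9 : (2 * k + 1 : ℝ) * (w k t / 20) ≤ (2 * k + 1) * ((k : ℝ) ^ 2 * t ^ 2 / 20) :=
        mul_le_mul_of_nonneg_left (by linarith) (by linarith)
      refine h9.trans ?_
      have h10 : 0 ≤ (2 * k + 1 : ℝ) * t ^ 2 * k := by positivity
      nlinarith [mul_nonneg h10 hk]
    linarith

lemma norm_E_U (k : ℕ) (t : ℝ) (h0 : 0 ≤ t) (h1 : t ≤ 1) : ‖E t (U k)‖ ≤ 1 - w k t / 20 := by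
  rw [E_U, Complex.norm_real, Real.norm_eq_abs, abs_mul, abs_of_pos (by positivity), one_div,
    inv_mul_le_iff₀ (by positivity)]
  exact S_bound k t h0 h1

lemma U_coeff (k : ℕ) (x : ℤ) : (U k).coeff x = if |x| ≤ (k : ℤ) then 1 / (2 * k + 1 : ℝ) else 0 := by
  have h := U_mul_coeff k 1 x
  rw [mul_one] at h
  rw [h, ← T_zero]
  simp only [T_coeff]
  split_ifs with hx
  · rw [abs_le] at hx
    rw [Finset.sum_eq_single (x + k).toNat]
    · rw [if_pos (by omega), mul_one]
    · intro n _ hn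
      rw [if_neg (by omega)]
    · intro hn
      exact absurd (Finset.mem_range.2 (by omega)) hn
  · rw [Finset.sum_eq_zero, mul_zero]
    intro n hn
    have hn' := Finset.mem_range.1 hn
    rw [if_neg]
    intro h1
    exact hx (abs_le.2 ⟨by omega, by omega⟩)

/-- a symmetric unimodal element is a mixture of uniform ones -/
lemma mixture {f : L} (hf : Uni f) : ∃ (K : ℕ) (c : ℕ → ℝ), (∀ k, 0 ≤ c k) ∧
    f = ∑ k ∈ range K, c k • U k := by
  obtain ⟨K, hK⟩ := exists_bound f
  refine ⟨K, fun k => (2 * k + 1) * (f.coeff k - f.coeff ((k : ℤ) + 1)), fun k => ?_, ?_⟩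
  · have := hf (k : ℤ) ((k : ℤ) + 1) (by
      rw [abs_of_nonneg (by positivity), abs_of_nonneg (by positivity)]
      omega)
    have h1 : (0 : ℝ) ≤ 2 * k + 1 := by positivity
    exact mul_nonneg h1 (by linarith)
  · refine AddMonoidAlgebra.coeff_injective ?_
    ext x
    rw [AddMonoidAlgebra.coeff_sum, Finsupp.finsetSum_apply]
    simp only [AddMonoidAlgebra.coeff_smul_apply, U_coeff, smul_eq_mul]
    have hx : f.coeff x = f.coeff |x| := by
      rcases abs_choice x with h | h
      · rw [h]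
      · rw [h, hf.symm]
    have h1 : ∀ k : ℕ, (2 * (k : ℝ) + 1) * (f.coeff k - f.coeff ((k : ℤ) + 1)) *
        (if |x| ≤ (k : ℤ) then 1 / (2 * k + 1 : ℝ) else 0) =
        if |x| ≤ (k : ℤ) then f.coeff k - f.coeff ((k : ℤ) + 1) else 0 := by
      intro k
      have h2 : (2 * (k : ℝ) + 1) ≠ 0 := by positivity
      split_ifs
      · field_simp
      · rw [mul_zero]
    simp only [h1]
    have h3 : ∀ m : ℕ, ∑ k ∈ range m, (if |x| ≤ (k : ℤ) then f.coeff k - f.coeff ((k : ℤ) + 1) else 0) =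
        if |x| ≤ (m : ℤ) then f.coeff |x| - f.coeff m else 0 := by
      intro m
      induction m with
      | zero =>
        simp only [range_zero, sum_empty]
        split_ifs with h
        · have h4 : |x| = ((0 : ℕ) : ℤ) := le_antisymm h (abs_nonneg x)
          rw [h4]
          simp
        · rfl
      | succ m ih =>
        rw [Finset.sum_range_succ, ih]
        by_cases h : |x| ≤ (m : ℤ)
        · rw [if_pos h, if_pos h, if_pos (by push_cast; omega)]
          push_cast
          ring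
        · rw [if_neg h, if_neg h]
          split_ifs with h5
          · have h6 : |x| = ((m + 1 : ℕ) : ℤ) := by push_cast at h5 ⊢; omega
            rw [h6]
            simp
          · simp
    rw [h3]
    split_ifs with h
    · rw [hK (K : ℤ) (by simp), sub_zero, hx]
    · exact hK x (by omega)

lemma Uni_sum {ι : Type*} (s : Finset ι) (c : ι → ℝ) (hc : ∀ i, 0 ≤ c i) (g : ι → L)
    (hg : ∀ i, Uni (g i)) : Uni (∑ i ∈ s, c i • g i) := by
  intro x y hxy
  rw [AddMonoidAlgebra.coeff_sum, Finsupp.finsetSum_apply, Finsupp.finsetSum_apply]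
  refine Finset.sum_le_sum fun i _ => ?_
  simp only [AddMonoidAlgebra.coeff_smul_apply, smul_eq_mul]
  exact mul_le_mul_of_nonneg_left (hg i x y hxy) (hc i)

lemma Uni.mul {f g : L} (hf : Uni f) (hg : Uni g) : Uni (f * g) := by
  obtain ⟨K, c, hc, h⟩ := mixture hf
  rw [h, Finset.sum_mul]
  have h1 : ∑ i ∈ range K, c i • U i * g = ∑ i ∈ range K, c i • (U i * g) :=
    Finset.sum_congr rfl fun i _ => smul_mul_assoc _ _ _
  rw [h1]
  exact Uni_sum _ c hc _ fun i => Uni_U_mul hg i

lemma Uni_one : Uni (1 : L) := by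
  intro x y hxy
  rw [← T_zero, T_coeff, T_coeff]
  split_ifs with h1 h2 h2
  · exact le_rfl
  · exfalso
    subst h1
    rw [abs_zero] at hxy
    exact h2 (abs_nonpos_iff.1 hxy).symm
  · norm_num
  · exact le_rfl

lemma Uni.pow {f : L} (hf : Uni f) (n : ℕ) : Uni (f ^ n) := by
  induction n with
  | zero => rw [pow_zero]; exact Uni_one
  | succ n ih => rw [pow_succ]; exact ih.mul hf

end Pool.Agent.R434.Ritt
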