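import Mathlib
import Pool.Agent.R434.RittB

/-!
The Ritt bound for finitely supported symmetric unimodal probability measures.
-/

set_option autoImplicit false

namespace Pool.Agent.R434.Ritt

open Finset MeasureTheory

lemma psi_formula (a : ℝ) (x : ℝ) (hx : x ≠ 0) :
    ∫ t in (0 : ℝ)..a, (a - t) * Real.cos (x * t) = (1 - Real.cos (x * a)) / x ^ 2 := by
  have h : ∀ t ∈ Set.uIcc 0 a, HasDerivAt (fun t => (a - t) * Real.sin (x * t) / x - Real.cos (x * t) / x ^ 2)
      ((a - t) * Real.cos (x * t)) t := by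
    intro t _
    have h1 : HasDerivAt (fun t : ℝ => x * t) x t := by
      simpa using (hasDerivAt_id t).const_mul x
    have h2 : HasDerivAt (fun t : ℝ => a - t) (-1) t := by
      simpa using (hasDerivAt_id t).const_sub a
    have h3 := (h2.mul h1.sin).div_const x
    have h4 := h1.cos.div_const (x ^ 2)
    refine (h3.sub h4).congr_deriv ?_
    field_simp
    ring
  rw [intervalIntegral.integral_eq_sub_of_hasDerivAt h]
  · simp only [sub_self, zero_mul, zero_div, mul_zero, Real.sin_zero, Real.cos_zero, sub_zero, zero_sub]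
    ring
  · apply Continuous.intervalIntegrable
    fun_prop

/-- the Fejer-type weight -/
noncomputable def psi (k : ℕ) (x : ℝ) : ℝ :=
  2 * (k : ℝ) ^ 2 * ∫ t in (0 : ℝ)..(1 / k), (1 / k - t) * Real.cos (x * t)

lemma psi_nonneg (k : ℕ) (x : ℝ) : 0 ≤ psi k x := by
  unfold psi
  refine mul_nonneg (by positivity) ?_
  by_cases hx : x = 0
  · subst hx
    refine intervalIntegral.integral_nonneg (by positivity) fun t ht => ?_
    rw [zero_mul, Real.cos_zero, mul_one]
    linarith [ht.2]
  · rw [psi_formula _ _ hx]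
    have := Real.cos_le_one (x * (1 / k))
    have h : (0 : ℝ) ≤ 1 - Real.cos (x * (1 / k)) := by linarith
    positivity

lemma psi_lower (k : ℕ) (hk : 1 ≤ k) (x : ℝ) (hx : |x| ≤ k) : 2 / 5 ≤ psi k x := by
  have hk0 : (0 : ℝ) < k := by exact_mod_cast hk
  unfold psi
  by_cases hx0 : x = 0
  · subst hx0
    have : ∫ t in (0 : ℝ)..(1 / k), (1 / k - t) * Real.cos (0 * t) = 1 / (2 * (k : ℝ) ^ 2) := by
      have h1 : ∀ t : ℝ, (1 / (k : ℝ) - t) * Real.cos (0 * t) = 1 / k - t := by
        intro t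
        rw [zero_mul, Real.cos_zero, mul_one]
      simp only [h1]
      rw [intervalIntegral.integral_sub, intervalIntegral.integral_const, integral_id]
      · simp only [smul_eq_mul]
        field_simp
        ring
      · exact intervalIntegrable_const
      · exact continuous_id.intervalIntegrable _ _
    rw [this]
    rw [mul_one_div, div_self (by positivity)]
    norm_num
  · rw [psi_formula _ _ hx0]
    have hy : |x * (1 / k)| ≤ 1 := by
      rw [abs_mul, abs_of_pos (by positivity : (0 : ℝ) < 1 / k), mul_one_div, div_le_one hk0]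
      exact hx
    have hpi := Real.pi_gt_three
    have h1 := Real.cos_le_one_sub_mul_cos_sq (hy.trans (by linarith))
    have hpi2 : Real.pi ^ 2 < 10 := by
      have := Real.pi_lt_d2
      nlinarith
    have h5 : (1 : ℝ) / 5 ≤ 2 / Real.pi ^ 2 := by
      rw [div_le_div_iff₀ (by norm_num) (by positivity)]
      linarith
    have h6 : 1 / 5 * (x * (1 / k)) ^ 2 ≤ 1 - Real.cos (x * (1 / k)) := by
      have := mul_le_mul_of_nonneg_right h5 (sq_nonneg (x * (1 / k)))
      linarith
    have h7 : 1 / 5 * (x * (1 / k)) ^ 2 / x ^ 2 ≤ (1 - Real.cos (x * (1 / k))) / x ^ 2 :=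
      div_le_div_of_nonneg_right h6 (by positivity)
    have h8 : 1 / 5 * (x * (1 / k)) ^ 2 / x ^ 2 = 1 / 5 * (1 / (k : ℝ)) ^ 2 := by
      field_simp
    rw [h8] at h7
    have h9 := mul_le_mul_of_nonneg_left h7 (by positivity : (0 : ℝ) ≤ 2 * (k : ℝ) ^ 2)
    refine le_trans (le_of_eq ?_) h9
    field_simp

lemma continuous_E (f : L) : Continuous fun t : ℝ => E t f := by
  simp only [E_eq]
  fun_prop

lemma F_le (f : L) (hf : ∀ x, 0 ≤ f.coeff x) (k : ℕ) (hk : 1 ≤ k) :
    F f k ≤ 5 * k * ∫ t in (0 : ℝ)..(1 / k), ‖E t f‖ := by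
  have hk0 : (0 : ℝ) < k := by exact_mod_cast hk
  have h1 : F f k ≤ 5 / 2 * ∑ x ∈ f.coeff.support, f.coeff x * psi k x := by
    have h2 : F f k = ∑ x ∈ f.coeff.support, if |x| ≤ (k : ℤ) then f.coeff x else 0 := by
      rw [F_eq_tsum]
      refine tsum_eq_sum fun x hx => ?_
      have : f.coeff x = 0 := by simpa using hx
      rw [this, ite_self]
    rw [h2, Finset.mul_sum]
    refine Finset.sum_le_sum fun x _ => ?_
    split_ifs with hx
    · have h3 := psi_lower k hk (x : ℝ) (by rw [← Int.cast_abs]; exact_mod_cast hx)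
      have := mul_le_mul_of_nonneg_left h3 (hf x)
      linarith
    · have := mul_nonneg (hf x) (psi_nonneg k x)
      linarith
  have h2 : ∑ x ∈ f.coeff.support, f.coeff x * psi k x =
      2 * (k : ℝ) ^ 2 * ∫ t in (0 : ℝ)..(1 / k), (1 / k - t) * (E t f).re := by
    have h3 : ∀ t : ℝ, (1 / (k : ℝ) - t) * (E t f).re =
        ∑ x ∈ f.coeff.support, f.coeff x * ((1 / k - t) * Real.cos (x * t)) := by
      intro t
      rw [E_re, Finset.mul_sum]
      refine Finset.sum_congr rfl fun x _ => ?_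
      ring
    simp only [h3]
    rw [intervalIntegral.integral_finsetSum]
    · rw [Finset.mul_sum]
      refine Finset.sum_congr rfl fun x _ => ?_
      rw [intervalIntegral.integral_const_mul]
      unfold psi
      ring
    · intro x _
      apply Continuous.intervalIntegrable
      fun_prop
  have hc := continuous_E f
  have h3 : ∫ t in (0 : ℝ)..(1 / k), (1 / k - t) * (E t f).re ≤
      ∫ t in (0 : ℝ)..(1 / k), (1 / k) * ‖E t f‖ := by
    refine intervalIntegral.integral_mono_on (by positivity) ?_ ?_ fun t ht => ?_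
    · apply Continuous.intervalIntegrable
      exact (continuous_const.sub continuous_id).mul (Complex.continuous_re.comp hc)
    · apply Continuous.intervalIntegrable
      exact continuous_const.mul hc.norm
    · have h4 : (E t f).re ≤ ‖E t f‖ := Complex.re_le_norm _
      have h5 : (0 : ℝ) ≤ 1 / k - t := by linarith [ht.2]
      have h6 : 1 / (k : ℝ) - t ≤ 1 / k := by linarith [ht.1]
      exact (mul_le_mul_of_nonneg_left h4 h5).trans (mul_le_mul_of_nonneg_right h6 (norm_nonneg _))
  rw [intervalIntegral.integral_const_mul] at h3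
  rw [h2] at h1
  refine h1.trans ?_
  have h4 := mul_le_mul_of_nonneg_left h3 (by positivity : (0 : ℝ) ≤ 5 / 2 * (2 * (k : ℝ) ^ 2))
  calc 5 / 2 * (2 * (k : ℝ) ^ 2 * ∫ t in (0 : ℝ)..(1 / k), (1 / k - t) * (E t f).re)
      = 5 / 2 * (2 * (k : ℝ) ^ 2) * ∫ t in (0 : ℝ)..(1 / k), (1 / k - t) * (E t f).re := by ring
    _ ≤ 5 / 2 * (2 * (k : ℝ) ^ 2) * (1 / k * ∫ t in (0 : ℝ)..(1 / k), ‖E t f‖) := h4
    _ = _ := by
      field_simp

/-- the bathtub inequality -/
lemma bathtub (g : ℝ → ℝ) (hg : Continuous g) (h0 : ∀ t, 0 ≤ g t) (h1 : ∀ t, g t ≤ 1) (a : ℝ)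
    (ha : 0 ≤ a) : (∫ t in (0 : ℝ)..a, g t) ^ 2 ≤ 2 * ∫ t in (0 : ℝ)..a, t * g t := by
  set G : ℝ → ℝ := fun u => ∫ t in (0 : ℝ)..u, g t with hG
  have hd : ∀ u, HasDerivAt G (g u) u := fun u => (hg.integral_hasStrictDerivAt 0 u).hasDerivAt
  have hGc : Continuous G := continuous_iff_continuousAt.2 fun u => (hd u).continuousAt
  have h2 : ∫ t in (0 : ℝ)..a, 2 * G t * g t = G a ^ 2 - G 0 ^ 2 := by
    refine intervalIntegral.integral_eq_sub_of_hasDerivAt (f := fun t => G t ^ 2) (fun t _ => ?_) ?_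
    · have := (hd t).pow 2
      refine this.congr_deriv ?_
      simp
    · exact ((continuous_const.mul hGc).mul hg).intervalIntegrable _ _
  have h3 : G 0 = 0 := by simp [hG]
  rw [h3] at h2
  have h4 : ∀ u, 0 ≤ u → G u ≤ u := by
    intro u hu
    have : G u ≤ ∫ t in (0 : ℝ)..u, (1 : ℝ) :=
      intervalIntegral.integral_mono_on hu (hg.intervalIntegrable _ _) intervalIntegrable_const
        fun t _ => h1 t
    simpa using this
  have h5 : ∫ t in (0 : ℝ)..a, 2 * G t * g t ≤ ∫ t in (0 : ℝ)..a, 2 * (t * g t) := by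
    refine intervalIntegral.integral_mono_on ha ?_ ?_ fun t ht => ?_
    · exact ((continuous_const.mul hGc).mul hg).intervalIntegrable _ _
    · exact (continuous_const.mul (continuous_id.mul hg)).intervalIntegrable _ _
    · have := mul_le_mul_of_nonneg_right (h4 t ht.1) (h0 t)
      nlinarith
  rw [intervalIntegral.integral_const_mul] at h5
  calc G a ^ 2 = ∫ t in (0 : ℝ)..a, 2 * G t * g t := by rw [h2]; ring
    _ ≤ _ := h5

/-- the derivative of the weight -/
noncomputable def w' (k : ℕ) (t : ℝ) : ℝ := 2 * (k : ℝ) ^ 2 * t / (1 + (k : ℝ) ^ 2 * t ^ 2) ^ 2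

lemma hasDerivAt_w (k : ℕ) (t : ℝ) : HasDerivAt (w k) (w' k t) t := by
  unfold w w'
  have h1 : HasDerivAt (fun t : ℝ => (k : ℝ) ^ 2 * t ^ 2) ((k : ℝ) ^ 2 * (2 * t)) t := by
    have := (hasDerivAt_pow 2 t).const_mul ((k : ℝ) ^ 2)
    simpa using this
  have h2 : HasDerivAt (fun t : ℝ => 1 + (k : ℝ) ^ 2 * t ^ 2) ((k : ℝ) ^ 2 * (2 * t)) t := by
    simpa using h1.const_add 1
  have h3 : (1 + (k : ℝ) ^ 2 * t ^ 2) ≠ 0 := by positivity
  refine (h1.div h2 h3).congr_deriv ?_
  field_simp
  ring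

lemma w'_nonneg (k : ℕ) (t : ℝ) (ht : 0 ≤ t) : 0 ≤ w' k t := by
  unfold w'
  positivity

lemma continuous_w' (k : ℕ) : Continuous (w' k) := by
  unfold w'
  refine Continuous.div ?_ ?_ fun t => ?_
  · fun_prop
  · fun_prop
  · positivity

lemma continuous_w (k : ℕ) : Continuous (w k) :=
  continuous_iff_continuousAt.2 fun t => (hasDerivAt_w k t).continuousAt

lemma w'_lower (k : ℕ) (hk : 1 ≤ k) (t : ℝ) (ht : 0 ≤ t) (ht1 : t ≤ 1 / k) :
    2 * (k : ℝ) ^ 2 * t ≤ 4 * w' k t := by
  have hk0 : (0 : ℝ) < k := by exact_mod_cast hk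
  unfold w'
  have h1 : (k : ℝ) * t ≤ 1 := by
    rw [le_div_iff₀ hk0] at ht1
    linarith
  have h2 : (k : ℝ) ^ 2 * t ^ 2 ≤ 1 := by
    have h3 : 0 ≤ (k : ℝ) * t := by positivity
    nlinarith
  have h3 : 0 ≤ (k : ℝ) ^ 2 * t ^ 2 := by positivity
  have h4 : (1 + (k : ℝ) ^ 2 * t ^ 2) ^ 2 ≤ 4 := by nlinarith
  rw [mul_div_assoc', le_div_iff₀ (by positivity)]
  have h5 : 0 ≤ 2 * (k : ℝ) ^ 2 * t := by positivity
  nlinarith [mul_le_mul_of_nonneg_left h4 h5]

/-- the main estimate for even powers -/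
lemma even_bound {μ : L} (hU : Uni μ) (h1 : ∑' x : ℤ, μ.coeff x = 1) (N : ℕ) (hN : 1 ≤ N) :
    N1 (μ ^ (2 * N) * (1 - μ)) ≤ 4000 / N := by
  obtain ⟨K, c, hc, hmu⟩ := mixture hU
  have hN0 : (0 : ℝ) < N := by exact_mod_cast hN
  -- total mass one
  have hcs : ∑ k ∈ range K, c k = 1 := by
    have h2 : E 0 μ = 1 := by rw [E_zero, h1]; simp
    rw [hmu, map_sum] at h2
    have h3 : ∀ k ∈ range K, E 0 (c k • U k) = (c k : ℂ) := by
      intro k _
      rw [map_smul, E_U]
      have : S k 0 = 2 * k + 1 := by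
        unfold S
        simp
      rw [this, one_div, inv_mul_cancel₀ (by positivity)]
      simp
    rw [Finset.sum_congr rfl h3] at h2
    exact_mod_cast h2
  set v : ℝ → ℝ := fun t => ∑ k ∈ range K, c k * w k t with hv
  set v' : ℝ → ℝ := fun t => ∑ k ∈ range K, c k * w' k t with hv'
  have hvd : ∀ t, HasDerivAt v (v' t) t := fun t =>
    HasDerivAt.fun_sum fun k _ => (hasDerivAt_w k t).const_mul (c k)
  have hvc : Continuous v := continuous_iff_continuousAt.2 fun t => (hvd t).continuousAt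
  have hvc' : Continuous v' := continuous_finsetSum _ fun k _ => continuous_const.mul (continuous_w' k)
  have hv0 : ∀ t, 0 ≤ v t := fun t => Finset.sum_nonneg fun k _ => mul_nonneg (hc k) (w_nonneg k t)
  set g : ℝ → ℝ := fun t => Real.exp (-(N * v t / 20)) with hg
  have hgc : Continuous g := by
    have : Continuous fun t => -(N * v t / 20) := ((continuous_const.mul hvc).div_const 20).neg
    exact Real.continuous_exp.comp this
  have hg0 : ∀ t, 0 ≤ g t := fun t => (Real.exp_pos _).le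
  have hg1 : ∀ t, g t ≤ 1 := by
    intro t
    refine Real.exp_le_one_iff.2 ?_
    have := mul_nonneg hN0.le (hv0 t)
    linarith
  set f := μ ^ N with hf
  have hfU : Uni f := hU.pow N
  have hE : ∀ t, 0 ≤ t → t ≤ 1 → ‖E t f‖ ≤ g t := by
    intro t ht0 ht1
    have h2 : ‖E t μ‖ ≤ 1 - v t / 20 := by
      rw [hmu, map_sum]
      refine (norm_sum_le _ _).trans ?_
      have h3 : ∀ k ∈ range K, ‖E t (c k • U k)‖ ≤ c k * (1 - w k t / 20) := by
        intro k _
        rw [map_smul, norm_smul, Real.norm_eq_abs, abs_of_nonneg (hc k)]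
        exact mul_le_mul_of_nonneg_left (norm_E_U k t ht0 ht1) (hc k)
      refine (Finset.sum_le_sum h3).trans (le_of_eq ?_)
      calc ∑ k ∈ range K, c k * (1 - w k t / 20)
          = ∑ k ∈ range K, (c k - c k * w k t / 20) := Finset.sum_congr rfl fun k _ => by ring
        _ = 1 - v t / 20 := by
          rw [Finset.sum_sub_distrib, hcs, Finset.sum_div]
    have h3 : ‖E t μ‖ ≤ Real.exp (-(v t / 20)) := by
      have := Real.add_one_le_exp (-(v t / 20))
      linarith
    rw [hf, map_pow, norm_pow]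
    refine (pow_le_pow_left₀ (norm_nonneg _) h3 N).trans (le_of_eq ?_)
    rw [← Real.exp_nat_mul, hg]
    congr 1
    ring
  -- the bound for one `k`
  have hFk : ∀ k : ℕ, 1 ≤ k → F f k ^ 2 ≤ 100 * ∫ t in (0 : ℝ)..1, w' k t * g t := by
    intro k hk
    have hk0 : (0 : ℝ) < k := by exact_mod_cast hk
    have hk1 : (1 : ℝ) / k ≤ 1 := by
      rw [div_le_one hk0]
      exact_mod_cast hk
    have h2 : F f k ≤ 5 * k * ∫ t in (0 : ℝ)..(1 / k), g t := by
      refine (F_le f hfU.nonneg k hk).trans (mul_le_mul_of_nonneg_left ?_ (by positivity))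
      refine intervalIntegral.integral_mono_on (by positivity) ?_ (hgc.intervalIntegrable _ _)
        fun t ht => hE t ht.1 (ht.2.trans hk1)
      exact (continuous_E f).norm.intervalIntegrable _ _
    have h3 : F f k ^ 2 ≤ (5 * k * ∫ t in (0 : ℝ)..(1 / k), g t) ^ 2 :=
      pow_le_pow_left₀ (F_nonneg hfU k) h2 2
    refine h3.trans ?_
    rw [mul_pow]
    have h4 := bathtub g hgc hg0 hg1 (1 / k) (by positivity)
    have h5 := mul_le_mul_of_nonneg_left h4 (by positivity : (0 : ℝ) ≤ (5 * (k : ℝ)) ^ 2)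
    refine h5.trans ?_
    have h6 : (5 * (k : ℝ)) ^ 2 * (2 * ∫ t in (0 : ℝ)..(1 / k), t * g t) =
        25 * ∫ t in (0 : ℝ)..(1 / k), 2 * (k : ℝ) ^ 2 * t * g t := by
      have h7 : ∀ t : ℝ, 2 * (k : ℝ) ^ 2 * t * g t = 2 * (k : ℝ) ^ 2 * (t * g t) := fun t => by ring
      simp only [h7]
      rw [intervalIntegral.integral_const_mul]
      ring
    rw [h6]
    have hwg : Continuous fun t => w' k t * g t := (continuous_w' k).mul hgc
    have h7 : ∫ t in (0 : ℝ)..(1 / k), 2 * (k : ℝ) ^ 2 * t * g t ≤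
        ∫ t in (0 : ℝ)..(1 / k), 4 * (w' k t * g t) := by
      refine intervalIntegral.integral_mono_on (by positivity) ?_ ?_ fun t ht => ?_
      · apply Continuous.intervalIntegrable
        fun_prop
      · exact (continuous_const.mul hwg).intervalIntegrable _ _
      · have := mul_le_mul_of_nonneg_right (w'_lower k hk t ht.1 ht.2) (hg0 t)
        linarith
    rw [intervalIntegral.integral_const_mul] at h7
    have h8 : ∫ t in (0 : ℝ)..(1 / k), w' k t * g t ≤ ∫ t in (0 : ℝ)..1, w' k t * g t := by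
      rw [← intervalIntegral.integral_add_adjacent_intervals (hwg.intervalIntegrable 0 (1 / k))
        (hwg.intervalIntegrable (1 / k) 1)]
      have : 0 ≤ ∫ t in (1 / (k : ℝ))..1, w' k t * g t := by
        refine intervalIntegral.integral_nonneg hk1 fun t ht => ?_
        have ht0 : (0 : ℝ) ≤ t := le_trans (by positivity) ht.1
        exact mul_nonneg (w'_nonneg k t ht0) (hg0 t)
      linarith
    linarith
  -- integral of `v' g`
  have hvg : ∫ t in (0 : ℝ)..1, v' t * g t ≤ 20 / N := by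
    have h2 : ∫ t in (0 : ℝ)..1, v' t * g t = -(20 / N * g 1) - -(20 / N * g 0) := by
      refine intervalIntegral.integral_eq_sub_of_hasDerivAt (f := fun t => -(20 / N * g t))
        (fun t _ => ?_) ?_
      · have h3 : HasDerivAt (fun t => -(N * v t / 20)) (-(N * v' t / 20)) t :=
          (((hvd t).const_mul (N : ℝ)).div_const 20).neg
        have h4 := (h3.exp.const_mul (20 / (N : ℝ))).neg
        refine h4.congr_deriv ?_
        simp only [hg]
        field_simp
      · exact (hvc'.mul hgc).intervalIntegrable _ _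
    rw [h2]
    have h3 : 0 ≤ 20 / (N : ℝ) * g 1 := mul_nonneg (by positivity) (hg0 1)
    have h4 : 20 / (N : ℝ) * g 0 ≤ 20 / N * 1 := mul_le_mul_of_nonneg_left (hg1 0) (by positivity)
    linarith
  have hsum : ∑ k ∈ range K, c k * N1 ((1 - U k) * (f * f)) ≤ 4000 / N := by
    have h2 : ∀ k ∈ range K, c k * N1 ((1 - U k) * (f * f)) ≤
        200 * ∫ t in (0 : ℝ)..1, c k * w' k t * g t := by
      intro k _
      rcases Nat.eq_zero_or_pos k with h | h
      · subst h
        have h3 : U 0 = 1 := by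
          unfold U
          simp [T_zero]
        rw [h3, sub_self, zero_mul, N1_zero, mul_zero]
        have h4 : 0 ≤ ∫ t in (0 : ℝ)..1, c 0 * w' 0 t * g t :=
          intervalIntegral.integral_nonneg (by norm_num) fun t ht =>
            mul_nonneg (mul_nonneg (hc 0) (w'_nonneg 0 t ht.1)) (hg0 t)
        linarith
      · have h3 := (key1 hfU k).trans (mul_le_mul_of_nonneg_left (hFk k h) (by norm_num : (0 : ℝ) ≤ 2))
        have h4 := mul_le_mul_of_nonneg_left h3 (hc k)
        refine h4.trans (le_of_eq ?_)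
        have h5 : ∀ t : ℝ, c k * w' k t * g t = c k * (w' k t * g t) := fun t => by ring
        simp only [h5]
        rw [intervalIntegral.integral_const_mul]
        ring
    refine (Finset.sum_le_sum h2).trans ?_
    rw [← Finset.mul_sum, ← intervalIntegral.integral_finsetSum]
    · have h3 : ∀ t : ℝ, ∑ k ∈ range K, c k * w' k t * g t = v' t * g t := by
        intro t
        rw [← Finset.sum_mul]
      simp only [h3]
      have : (200 : ℝ) * (20 / N) = 4000 / N := by ring
      linarith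
    · intro k _
      exact ((continuous_const.mul (continuous_w' k)).mul hgc).intervalIntegrable _ _
  have h3 : μ ^ (2 * N) * (1 - μ) = ∑ k ∈ range K, c k • ((1 - U k) * (f * f)) := by
    have h4 : (1 : L) - μ = ∑ k ∈ range K, c k • (1 - U k) := by
      simp only [smul_sub]
      rw [Finset.sum_sub_distrib, ← Finset.sum_smul, hcs, one_smul, ← hmu]
    rw [h4, Finset.mul_sum]
    refine Finset.sum_congr rfl fun k _ => ?_
    rw [mul_smul_comm, two_mul, pow_add, mul_comm]
  rw [h3]
  refine (N1_sum _ _).trans (le_trans (le_of_eq ?_) hsum)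
  refine Finset.sum_congr rfl fun k _ => ?_
  rw [N1_smul, abs_of_nonneg (hc k)]

lemma N1_of_nonneg {f : L} (hf : ∀ x, 0 ≤ f.coeff x) : N1 f = ∑' x : ℤ, f.coeff x := by
  unfold N1
  exact tsum_congr fun x => abs_of_nonneg (hf x)

lemma N1_one : N1 (1 : L) = 1 := by
  rw [← T_zero]
  unfold N1
  rw [tsum_eq_single 0]
  · rw [T_coeff]
    simp
  · intro x hx
    rw [T_coeff, if_neg (Ne.symm hx), abs_zero]

theorem main_fin {μ : L} (hU : Uni μ) (h1 : ∑' x : ℤ, μ.coeff x = 1) (n : ℕ) :
    n * N1 (μ ^ n - μ ^ (n + 1)) ≤ 12000 := by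
  have hm : N1 μ = 1 := by rw [N1_of_nonneg hU.nonneg, h1]
  have e : ∀ m : ℕ, μ ^ m - μ ^ (m + 1) = μ ^ m * (1 - μ) := fun m => by ring
  have hle : ∀ m : ℕ, N1 (μ ^ (m + 1) * (1 - μ)) ≤ N1 (μ ^ m * (1 - μ)) := by
    intro m
    have h2 : μ ^ (m + 1) * (1 - μ) = μ * (μ ^ m * (1 - μ)) := by ring
    rw [h2]
    refine (N1_mul _ _).trans ?_
    rw [hm, one_mul]
  rw [e]
  rcases Nat.lt_or_ge n 2 with h | h
  · have h2 : N1 (μ ^ n * (1 - μ)) ≤ 2 := by
      have h3 : N1 (1 - μ) ≤ 2 := by
        have := N1_add 1 (-μ)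
        rw [N1_neg, hm, N1_one] at this
        rw [sub_eq_add_neg]
        linarith
      have h4 : ∀ m : ℕ, N1 (μ ^ m * (1 - μ)) ≤ 2 := by
        intro m
        induction m with
        | zero => rw [pow_zero, one_mul]; exact h3
        | succ m ih => exact (hle m).trans ih
      exact h4 n
    have h3 : (n : ℝ) ≤ 1 := by exact_mod_cast Nat.lt_succ_iff.1 h
    have h4 : (0 : ℝ) ≤ n := Nat.cast_nonneg n
    nlinarith [N1_nonneg (μ ^ n * (1 - μ))]
  · obtain ⟨N, hN⟩ : ∃ N, n = 2 * N ∨ n = 2 * N + 1 := ⟨n / 2, by omega⟩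
    have hN1 : 1 ≤ N := by omega
    have hN0 : (0 : ℝ) < N := by exact_mod_cast hN1
    have h2 : N1 (μ ^ n * (1 - μ)) ≤ 4000 / N := by
      rcases hN with h3 | h3
      · rw [h3]
        exact even_bound hU h1 N hN1
      · rw [h3]
        exact (hle _).trans (even_bound hU h1 N hN1)
    have h3 : (n : ℝ) ≤ 3 * N := by
      have : n ≤ 3 * N := by omega
      exact_mod_cast this
    calc (n : ℝ) * N1 (μ ^ n * (1 - μ)) ≤ 3 * N * (4000 / N) :=
        mul_le_mul h3 h2 (N1_nonneg _) (by positivity)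
      _ = 12000 := by
        field_simp
        norm_num

end Pool.Agent.R434.Ritt
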